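import Pool.Agent.Q278.CycCong

set_option autoImplicit false

/-! The sum `S_p(q)` modulo `Φ_p(q) ^ 5`: the correct value for every prime `p > 3`, and the
conjectured value holds exactly for `p = 5` and `p = 7`. -/

namespace Pool.Agent.Results.MP_328b17_nt.Full

open Finset Polynomial

/-- The indeterminate `q`. -/
noncomputable abbrev q : RatFunc ℚ := RatFunc.X

/-- The `q`-integer `[m] = (1 - q ^ m) / (1 - q)` for an integer `m`. -/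
noncomputable def qint (m : ℤ) : RatFunc ℚ := (1 - q ^ m) / (1 - q)

/-- The `q`-shifted factorial `(a; Q)_k`. -/
noncomputable def poch (a Q : RatFunc ℚ) (k : ℕ) : RatFunc ℚ := ∏ i ∈ range k, (1 - a * Q ^ i)

/-- The sum `S_p(q)`. -/
noncomputable def S (p : ℕ) : RatFunc ℚ := ∑ j ∈ range p, qint (2 * ((p : ℤ) - 1) * j - 1) *
  (poch q⁻¹ (q ^ (p - 1)) j / poch (q ^ (p - 1)) (q ^ (p - 1)) j) ^ (2 * (p - 1)) *
    q ^ (j * (p - 1) ^ 2)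

/-- `A ≡ B (mod P)`: the difference is a fraction with denominator coprime to `P` and numerator
divisible by `P`. -/
def Cong (P : ℚ[X]) (A B : RatFunc ℚ) : Prop := ∃ a b : ℚ[X], IsCoprime b P ∧ P ∣ a ∧
  A - B = algebraMap ℚ[X] (RatFunc ℚ) a / algebraMap ℚ[X] (RatFunc ℚ) b

/-- `Φ_p(q)` as a rational function. -/
noncomputable def Φ (p : ℕ) : RatFunc ℚ := algebraMap ℚ[X] (RatFunc ℚ) (cyclotomic p ℚ)

/-- The congruence of Q1 for the prime `p`. -/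
def Stated (p : ℕ) : Prop := Cong (cyclotomic p ℚ ^ 5) (S p)
  ((1 / 6) * ((p : RatFunc ℚ) - 1) * (p - 3) * (2 * p - 3) * (p - 2) ^ 2 * (1 - q) ^ 2 * Φ p ^ 4)

/-- The congruence with the correct constant. -/
def Corrected (p : ℕ) : Prop := Cong (cyclotomic p ℚ ^ 5) (S p)
  ((1 / 72) * ((p : RatFunc ℚ) - 1) ^ 2 * (p + 1) * (2 * p - 3) * (p - 2) ^ 2 * (1 - q) ^ 2 *
    Φ p ^ 4)

theorem S_eq {p : ℕ} (hp : p.Prime) {ζ : ℂ} (hζ : IsPrimitiveRoot ζ p) (hd : ¬ p ∣ (p - 1)) :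
    (1 - q) * S p = Q278.VWP.G (q ^ (p - 1)) (q⁻¹ ^ p) (p - 1) p := by
  have hyp := Q278.Cyc.hyp hp hd hζ
  rw [Q278.Cyc.G_eq hyp]
  unfold S
  rw [mul_sum]
  apply sum_congr rfl
  intro j _
  have hq0 : q ≠ 0 := Q278.Cyc.q_ne
  have h1q : (1 - q) ≠ 0 := by
    have h1q : (1 - q) ∈ Q278.Cyc.Reg ζ := (Q278.Cyc.Reg ζ).sub_mem (Q278.Cyc.Reg ζ).one_mem
      (Q278.Cyc.X_mem ζ)
    apply Q278.Cyc.ne_zero_of_ev (η := ζ)
    rw [Q278.Cyc.ev_sub (Q278.Cyc.Reg ζ).one_mem (Q278.Cyc.X_mem ζ), Q278.Cyc.ev_one,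
      Q278.Cyc.ev_X]
    intro h
    exact hζ.ne_one hp.one_lt (sub_eq_zero.1 h).symm
  have huQ : q⁻¹ ^ p * q ^ (p - 1) = q⁻¹ := by
    have : q ^ p = q ^ (p - 1) * q := by
      conv_lhs => rw [show p = (p - 1) + 1 by have := hp.pos; omega, pow_succ]
    rw [inv_pow, this]; field_simp
  have e1 : (1 - q) * qint (2 * ((p : ℤ) - 1) * j - 1) =
      1 - q⁻¹ ^ p * (q ^ (p - 1)) ^ (2 * j + 1) := by
    unfold qint
    rw [mul_div_cancel₀ _ h1q]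
    congr 1
    have e2 : q⁻¹ ^ p * (q ^ (p - 1)) ^ (2 * j + 1) = q⁻¹ * (q ^ (p - 1)) ^ (2 * j) := by
      rw [pow_succ]
      linear_combination (q ^ (p - 1)) ^ (2 * j) * huQ
    rw [e2, ← pow_mul]
    have e3 : (2 * ((p : ℤ) - 1) * j - 1) = (((p - 1) * (2 * j) : ℕ) : ℤ) + (-1) := by
      push_cast [Nat.cast_sub hp.one_lt.le]; ring
    rw [e3, zpow_add₀ hq0, zpow_natCast, zpow_neg_one, mul_comm]
  have e2 : poch q⁻¹ (q ^ (p - 1)) j / poch (q ^ (p - 1)) (q ^ (p - 1)) j =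
      ∏ i ∈ range j, (1 - q⁻¹ ^ p * (q ^ (p - 1)) ^ (i + 1)) / (1 - (q ^ (p - 1)) ^ (i + 1)) := by
    unfold poch
    rw [← prod_div_distrib]
    apply prod_congr rfl
    intro i _
    have e3 : q⁻¹ ^ p * (q ^ (p - 1)) ^ (i + 1) = q⁻¹ * (q ^ (p - 1)) ^ i := by
      rw [pow_succ]
      linear_combination (q ^ (p - 1)) ^ i * huQ
    rw [e3, pow_succ, mul_comm (q ^ (p - 1)) ((q ^ (p - 1)) ^ i)]
  have e3 : q ^ (j * (p - 1) ^ 2) = ((q ^ (p - 1)) ^ (p - 1)) ^ j := by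
    rw [← pow_mul, ← pow_mul]; congr 1; ring
  rw [← e1, e2, e3]
  ring

theorem ratConst (ζ : ℂ) (c : ℚ) : Q278.Cyc.ev ζ (c : RatFunc ℚ) = (c : ℂ) := by
  have : ((c : ℚ) : RatFunc ℚ) = algebraMap ℚ[X] (RatFunc ℚ) (C c) := by
    rw [RatFunc.algebraMap_C]; exact (eq_ratCast RatFunc.C c).symm
  rw [this, Q278.Cyc.ev_poly, eval₂_C]; simp

theorem ratMem (ζ : ℂ) (c : ℚ) : (c : RatFunc ℚ) ∈ Q278.Cyc.Reg ζ := by
  have : ((c : ℚ) : RatFunc ℚ) = algebraMap ℚ[X] (RatFunc ℚ) (C c) := by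
    rw [RatFunc.algebraMap_C]; exact (eq_ratCast RatFunc.C c).symm
  rw [this]
  exact Q278.Cyc.poly_mem _

theorem not_dvd_pred {p : ℕ} (hp : p.Prime) : ¬ p ∣ (p - 1) := by
  intro h
  have := Nat.le_of_dvd (by have := hp.two_le; omega) h
  have := hp.two_le
  omega

theorem corr {p : ℕ} (hp : p.Prime) {ζ : ℂ} (hζ : IsPrimitiveRoot ζ p) : S p - Q278.Cyc.Φ p ^ 4 *
    ((((1 / 72) * ((p : ℚ) - 1) ^ 2 * (p + 1) * (2 * p - 3) * (p - 2) ^ 2 : ℚ) : RatFunc ℚ) *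
      (1 - q) ^ 2) ∈ Q278.Loc.I (Q278.Cyc.Reg ζ) (Q278.Cyc.Φ p) 5 := by
  have hd := not_dvd_pred hp
  have h1q : (1 - q) ∈ Q278.Cyc.Reg ζ := (Q278.Cyc.Reg ζ).sub_mem (Q278.Cyc.Reg ζ).one_mem
    (Q278.Cyc.X_mem ζ)
  have h1qev : Q278.Cyc.ev ζ (1 - q) = 1 - ζ := by
    rw [Q278.Cyc.ev_sub (Q278.Cyc.Reg ζ).one_mem (Q278.Cyc.X_mem ζ), Q278.Cyc.ev_one,
      Q278.Cyc.ev_X]
  have hζ0 : ζ ≠ 0 := hζ.ne_zero hp.ne_zero
  apply Q278.Cyc.main hp hd hζ (S_eq hp hζ hd)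
  · exact (Q278.Cyc.Reg ζ).mul_mem (ratMem ζ _) ((Q278.Cyc.Reg ζ).pow_mem h1q 2)
  · rw [Q278.Cyc.ev_mul (ratMem ζ _) ((Q278.Cyc.Reg ζ).pow_mem h1q 2), ratConst,
      Q278.Cyc.ev_pow h1q, h1qev]
    have h2 : ζ⁻¹ ^ (p - 1) = ζ := by
      have h3 : ζ ^ (p - 1) * ζ = 1 := by
        rw [← pow_succ, show p - 1 + 1 = p by have := hp.pos; omega, hζ.pow_eq_one]
      rw [inv_pow]
      exact inv_eq_of_mul_eq_one_right h3
    rw [h2]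
    push_cast [Nat.cast_sub hp.one_lt.le]
    ring

theorem stated_iff {p : ℕ} (hp : p.Prime) (hp3 : 3 < p) : Stated p ↔ p = 5 ∨ p = 7 := by
  have hζ := Complex.isPrimitiveRoot_exp p hp.ne_zero
  set ζ := Complex.exp (2 * Real.pi * Complex.I / p) with hζdef
  have hcorr := corr hp hζ
  have h1q : (1 - q) ∈ Q278.Cyc.Reg ζ := (Q278.Cyc.Reg ζ).sub_mem (Q278.Cyc.Reg ζ).one_mem
    (Q278.Cyc.X_mem ζ)
  have h1qev : Q278.Cyc.ev ζ (1 - q) = 1 - ζ := by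
    rw [Q278.Cyc.ev_sub (Q278.Cyc.Reg ζ).one_mem (Q278.Cyc.X_mem ζ), Q278.Cyc.ev_one,
      Q278.Cyc.ev_X]
  have e1 : (1 / 6) * ((p : RatFunc ℚ) - 1) * (p - 3) * (2 * p - 3) * (p - 2) ^ 2 * (1 - q) ^ 2 *
      Φ p ^ 4 = Q278.Cyc.Φ p ^ 4 *
    ((((1 / 6) * ((p : ℚ) - 1) * (p - 3) * (2 * p - 3) * (p - 2) ^ 2 : ℚ) : RatFunc ℚ) *
      (1 - q) ^ 2) := by
    unfold Φ Q278.Cyc.Φ
    push_cast
    ring
  constructor
  · rintro ⟨a, b, hb, ha, hab⟩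
    have h1 := Q278.Cyc.mem_of_cong hp.pos hζ (by norm_num) hb ha hab
    have h2 := (Q278.Loc.I (Q278.Cyc.Reg ζ) (Q278.Cyc.Φ p) 5).sub_mem hcorr h1
    rw [e1] at h2
    have h3 : Q278.Cyc.Φ p ^ 4 * (((((1 / 6) * ((p : ℚ) - 1) * (p - 3) * (2 * p - 3) *
        (p - 2) ^ 2 - (1 / 72) * ((p : ℚ) - 1) ^ 2 * (p + 1) * (2 * p - 3) * (p - 2) ^ 2 : ℚ)) :
          RatFunc ℚ) * (1 - q) ^ 2) ∈ Q278.Loc.I (Q278.Cyc.Reg ζ) (Q278.Cyc.Φ p) (4 + 1) := by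
      convert h2 using 1
      push_cast
      ring
    have h4 := Q278.Cyc.pi_k_cancel h3
    have h5 := Q278.Cyc.ev_of_mem hp.pos hζ h4
    rw [Q278.Cyc.ev_mul (ratMem ζ _) ((Q278.Cyc.Reg ζ).pow_mem h1q 2), ratConst,
      Q278.Cyc.ev_pow h1q, h1qev] at h5
    have h6 : (1 - ζ) ≠ 0 := by
      intro h
      exact hζ.ne_one hp.one_lt (sub_eq_zero.1 h).symm
    rcases mul_eq_zero.1 h5 with h7 | h7
    · have h8 : (1 / 6) * ((p : ℚ) - 1) * (p - 3) * (2 * p - 3) * (p - 2) ^ 2 - (1 / 72) *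
          ((p : ℚ) - 1) ^ 2 * (p + 1) * (2 * p - 3) * (p - 2) ^ 2 = 0 := by exact_mod_cast h7
      have hp3' : (3 : ℚ) < p := by exact_mod_cast hp3
      have h9 : ((p : ℚ) - 1) * (2 * p - 3) * (p - 2) ^ 2 * (((p : ℚ) - 5) * (p - 7)) = 0 := by
        linear_combination -72 * h8
      have h10 : ((p : ℚ) - 1) * (2 * p - 3) * (p - 2) ^ 2 ≠ 0 := by
        refine mul_ne_zero (mul_ne_zero ?_ ?_) (pow_ne_zero _ ?_) <;> linarith
      rcases mul_eq_zero.1 ((mul_eq_zero.1 h9).resolve_left h10) with h | h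
      · left
        have : (p : ℚ) = 5 := by linarith
        exact_mod_cast this
      · right
        have : (p : ℚ) = 7 := by linarith
        exact_mod_cast this
    · exact absurd h7 (pow_ne_zero _ h6)
  · intro h57
    obtain ⟨a, b, hb, ha, hab⟩ := Q278.Cyc.cong_of_mem hp.pos hζ hcorr
    refine ⟨a, b, hb, ha, ?_⟩
    rw [← hab, e1]
    congr 3
    rcases h57 with rfl | rfl <;> norm_num

theorem result : (∀ p : ℕ, p.Prime → 3 < p → Corrected p ∧ (Stated p ↔ p = 5 ∨ p = 7)) ∧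
    ¬ (∀ p : ℕ, p.Prime → 3 < p → Stated p) := by
  constructor
  · intro p hp hp3
    refine ⟨?_, stated_iff hp hp3⟩
    have hζ := Complex.isPrimitiveRoot_exp p hp.ne_zero
    obtain ⟨a, b, hb, ha, hab⟩ := Q278.Cyc.cong_of_mem hp.pos hζ (corr hp hζ)
    refine ⟨a, b, hb, ha, ?_⟩
    rw [← hab]
    unfold Φ Q278.Cyc.Φ
    push_cast
    ring
  · intro h
    have := (stated_iff (p := 11) (by norm_num) (by norm_num)).1 (h 11 (by norm_num) (by norm_num))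
    omega

end Pool.Agent.Results.MP_328b17_nt.Full
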